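import Pool.Agent.MP_f8e15f_co.H33.Main

namespace Pool.Agent.Results.MP_f8e15f_co.Soluble

open Pool.Agent.MP_f8e15f_co.H24 Pool.Agent.MP_f8e15f_co.H33

/-- Classification of the 1-designs that are `G`-pairwise transitive for a soluble group `G`. -/
theorem result (V : Type) [Finite V] [Nonempty V] (D : Set (Set V)) :
    (∃ k r : ℕ, 1 ≤ k ∧ 1 ≤ r ∧ IsOneDesign D k r ∧
      ∃ G : Subgroup (Equiv.Perm V), Group.IsSolvable G ∧ PairwiseTransitive G D) ↔
    ∃ (P : Type) (E : Set (Set P)), Listed P E ∧ (Iso D E ∨ Iso D (dual E)) :=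
  main V D

end Pool.Agent.Results.MP_f8e15f_co.Soluble
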